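import Mathlib

/-! Sails of an integer operator of the three-dimensional space, as subsets of real space. -/

set_option autoImplicit false
open Matrix

namespace Pool.Agent.MP_024ca5_nt.Sail

/-- The union of the planes spanned by two real eigenvectors of `A` with different eigenvalues. -/
def eigenPlanes (A : Matrix (Fin 3) (Fin 3) ℤ) : Set (Fin 3 → ℝ) :=
  {x | ∃ (a b : ℝ) (u w : Fin 3 → ℝ), a ≠ b ∧ u ≠ 0 ∧ w ≠ 0 ∧
    (A.map (Int.cast : ℤ → ℝ)) *ᵥ u = a • u ∧ (A.map (Int.cast : ℤ → ℝ)) *ᵥ w = b • w ∧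
    x ∈ Submodule.span ℝ ({u, w} : Set (Fin 3 → ℝ))}

/-- The convex hull of the nonzero integer points in the closure of `C`; its boundary is the sail. -/
def kleinHull (C : Set (Fin 3 → ℝ)) : Set (Fin 3 → ℝ) :=
  convexHull ℝ {y | y ∈ closure C ∧ ∃ z : Fin 3 → ℤ, z ≠ 0 ∧ y = fun i => (z i : ℝ)}

/-- `F` is a two-dimensional face of the sail in `C`, at integer distance `c` from the origin. -/
def IsSailFace (C F : Set (Fin 3 → ℝ)) (c : ℤ) : Prop :=
  IsExposed ℝ (kleinHull C) F ∧ F ⊆ frontier (kleinHull C) ∧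
    (∃ V : Finset (Fin 3 → ℤ),
      F = convexHull ℝ ((fun (z : Fin 3 → ℤ) (i : Fin 3) => (z i : ℝ)) '' (V : Set (Fin 3 → ℤ)))) ∧
    ∃ f : Fin 3 → ℤ, Finset.univ.gcd f = 1 ∧ 0 < c ∧
      (affineSpan ℝ F : Set (Fin 3 → ℝ)) = {x | ∑ i, (f i : ℝ) * x i = (c : ℝ)}

end Pool.Agent.MP_024ca5_nt.Sail
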